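import Mathlib

namespace Pool.Agent.Results.MP_fc1ccb_an.Period

open Complex

def w (n : ℕ) : ℤ := [-1, -1, -1, -1, 1, -1, 1, 1, 1, 1, 1, 1, 1, 1, 1, 1, 1, 1, -1, 1, -1, -1, -1,
  -1, -1, -1, -1, -1].getD (n % 28) 1

def step (e : ℤ) (u : ℚ × ℚ) : ℚ × ℚ :=
  ((u.1 + e) * (871 / 2329) + u.2 * (2160 / 2329), u.2 * (871 / 2329) - (u.1 + e) * (2160 / 2329))

def U : ℕ → ℚ × ℚ
  | 0 => (67859846462765905311191 / 164517971692716853781609,
      204340890245578652469240 / 164517971692716853781609)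
  | n + 1 => step (w n) (U n)

theorem w_per (n : ℕ) : w (n + 28) = w n := by simp [w]

theorem U_per (n : ℕ) : U (n + 28) = U n := by
  induction n with
  | zero => decide +kernel
  | succ n ih => rw [add_right_comm, U, ih, w_per, U]

theorem sgn (n : ℕ) : (w n = 1 ∨ w n = -1) ∧ w n * (U n).1 < 0 := by
  have : ∀ n < 28, (w n = 1 ∨ w n = -1) ∧ w n * (U n).1 < 0 := by decide +kernel
  rw [← Function.Periodic.map_mod_nat w_per n, ← Function.Periodic.map_mod_nat U_per n]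
  exact this _ (Nat.mod_lt _ (by norm_num))

theorem result : ∃ α : ℝ, Irrational α ∧ 0 < α ∧ ∃ (z : ℕ → ℂ) (ε : ℕ → ℤ),
    (∀ n, ε n = 1 ∨ ε n = -1) ∧
    (∀ n, z (n + 1) = z n + ε n * exp (2 * Real.pi * I * α * n)) ∧
    (∀ n, ‖z n + ε n * exp (2 * Real.pi * I * α * n)‖ <
      ‖z n - ε n * exp (2 * Real.pi * I * α * n)‖) ∧
    IsLeast {p : ℕ | 1 ≤ p ∧ ∃ N, ∀ n ≥ N, ε (n + p) = ε n} 28 := by
  obtain ⟨θ, hθ⟩ : ∃ θ, θ = Real.arccos (871 / 2329) := ⟨_, rfl⟩
  have hc : Real.cos θ = 871 / 2329 := by rw [hθ, Real.cos_arccos] <;> norm_num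
  have hs : Real.sin θ = 2160 / 2329 := by
    rw [hθ, Real.sin_arccos, Real.sqrt_eq_iff_mul_self_eq] <;> norm_num
  have hp := Real.pi_pos
  have he : ∀ n : ℕ, exp (2 * Real.pi * I * (θ / (2 * Real.pi) : ℝ) * n) = exp (θ * I) ^ n := by
    intro n
    rw [← exp_nat_mul]
    congr 1
    have : (Real.pi : ℂ) ≠ 0 := by exact_mod_cast hp.ne'
    push_cast
    field_simp
  have hl : exp (θ * I) = 871 / 2329 + 2160 / 2329 * I := by
    rw [exp_mul_I, ← ofReal_cos, ← ofReal_sin, hc, hs]; push_cast; rfl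
  refine ⟨θ / (2 * Real.pi), ?_, div_pos (hθ ▸ Real.arccos_pos.2 (by norm_num)) (by positivity),
    fun n => ((U n).1 + (U n).2 * I) * exp (θ * I) ^ n, w, fun n => (sgn n).1, fun n => ?_,
    fun n => ?_, ⟨by norm_num, 0, fun n _ => w_per n⟩, ?_⟩
  · rintro ⟨q, hq⟩
    have := niven (θ := θ) ⟨2 * q, by push_cast; rw [hq]; field_simp⟩ ⟨871 / 2329, by simp [hc]⟩
    rw [hc] at this
    norm_num at this
  · beta_reduce
    rw [he, pow_succ', ← mul_assoc, ← add_mul, hl]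
    congr 1
    simp only [U, step]
    push_cast
    linear_combination (((U n).2 * (871 / 2329) - ((U n).1 + w n) * (2160 / 2329)) *
      (2160 / 2329) : ℂ) * I_mul_I
  · rw [he, ← add_mul, ← sub_mul, norm_mul, norm_mul, norm_pow, norm_exp_ofReal_mul_I, one_pow,
      mul_one, mul_one, ← sq_lt_sq₀ (norm_nonneg _) (norm_nonneg _), Complex.sq_norm,
      Complex.sq_norm, normSq_apply, normSq_apply]
    have : (w n : ℝ) * (U n).1 < 0 := by exact_mod_cast (sgn n).2
    simp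
    linarith
  · rintro p ⟨h1, N, h⟩
    by_contra! hp
    have : ∀ p < 28, 1 ≤ p → ∃ r < 28, w (r + p) ≠ w r := by decide +kernel
    obtain ⟨r, -, hr⟩ := this p hp h1
    have := h (r + N * 28) (by omega)
    rw [add_right_comm] at this
    exact hr ((Function.Periodic.nat_mul w_per N _).symm.trans
      (this.trans (Function.Periodic.nat_mul w_per N r)))

end Pool.Agent.Results.MP_fc1ccb_an.Period
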